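import Pool.Agent.P.MP_39a2dc_an.HFinal

open scoped MatrixGroups
open Pool.Agent.P.MP_39a2dc_an.HD

/-- A representation of a cocompact Fuchsian group in `SL(d,R)` with exponential gaps `σ₁/σ₂` and
`σ₂/σ₃` that is not `(1,1,2)`-hyperconvex has affinity exponent larger than one. -/
theorem Pool.Agent.Results.MP_39a2dc_an.HyperconvexGap.result
    {Γ : Type*} [Group Γ] (S : Finset Γ) (hsym : ∀ s ∈ S, s⁻¹ ∈ S)
    (hgen : Subgroup.closure (S : Set Γ) = ⊤)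
    (η₀ : Γ →* PSL(2, ℝ)) (hinj : Function.Injective η₀) (hdisc : DiscreteTopology η₀.range)
    (hcocompact : CompactSpace (PSL(2, ℝ) ⧸ η₀.range))
    (ρ₀ : Γ →* SL(2, ℝ))
    (hlift : (QuotientGroup.mk' (Subgroup.center SL(2, ℝ))).comp ρ₀ = η₀)
    (d : ℕ) (hd : 3 ≤ d) (ρ : Γ →* SL(d, ℝ)) (h₁ : IsAnosov S ρ 1) (h₂ : IsAnosov S ρ 2)
    (hn : ¬ Hyperconvex ρ₀ ρ) : 1 < affExp ρ := by
  subst hlift
  obtain ⟨F, rfl⟩ := Pool.Agent.P.MP_39a2dc_an.H.exists_fu ρ₀ hinj hdisc hcocompact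
  obtain ⟨m, rfl⟩ : ∃ m, d = m + 3 := ⟨d - 3, by omega⟩
  exact Pool.Agent.P.MP_39a2dc_an.H.main hsym hgen F ρ h₁ h₂ hn

/-- Side theorem (a check of the definitions): `diag(ρ₀, 1)` is not hyperconvex. -/
theorem Pool.Agent.Results.MP_39a2dc_an.HyperconvexGap.barbot
    {Γ : Type*} [Group Γ]
    (η₀ : Γ →* PSL(2, ℝ)) (hinj : Function.Injective η₀) (hdisc : DiscreteTopology η₀.range)
    (hcocompact : CompactSpace (PSL(2, ℝ) ⧸ η₀.range))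
    (ρ₀ : Γ →* SL(2, ℝ))
    (hlift : (QuotientGroup.mk' (Subgroup.center SL(2, ℝ))).comp ρ₀ = η₀)
    (ρ₁ : Γ →* SL(3, ℝ))
    (h₁ : ∀ γ, (ρ₁ γ : Matrix (Fin 3) (Fin 3) ℝ) =
      !![ρ₀ γ 0 0, ρ₀ γ 0 1, 0; ρ₀ γ 1 0, ρ₀ γ 1 1, 0; 0, 0, 1]) : ¬ Hyperconvex ρ₀ ρ₁ := by
  subst hlift
  obtain ⟨F, rfl⟩ := Pool.Agent.P.MP_39a2dc_an.H.exists_fu ρ₀ hinj hdisc hcocompact
  exact Pool.Agent.P.MP_39a2dc_an.H.barbot F ρ₁ h₁
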