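import Pool.Agent.P.MP_39a2dc_an.HDimG

open scoped MatrixGroups Matrix
open Pool.Agent.P.MP_39a2dc_an.HD

/-- An irreducible representation of a cocompact Fuchsian group in `SL(d,R)` with exponential gaps
`σ₁/σ₂` and `σ₂/σ₃` that is not `(1,1,2)`-hyperconvex has a projective limit set (here: its lift to
the unit sphere) of Hausdorff dimension larger than one. -/
theorem Pool.Agent.Results.MP_39a2dc_an.LimitSetDim.result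
    {Γ : Type*} [Group Γ] (S : Finset Γ) (hsym : ∀ s ∈ S, s⁻¹ ∈ S)
    (hgen : Subgroup.closure (S : Set Γ) = ⊤)
    (η₀ : Γ →* PSL(2, ℝ)) (hinj : Function.Injective η₀) (hdisc : DiscreteTopology η₀.range)
    (hcocompact : CompactSpace (PSL(2, ℝ) ⧸ η₀.range))
    (ρ₀ : Γ →* SL(2, ℝ))
    (hlift : (QuotientGroup.mk' (Subgroup.center SL(2, ℝ))).comp ρ₀ = η₀)
    (d : ℕ) (hd : 3 ≤ d) (ρ : Γ →* SL(d, ℝ)) (h₁ : IsAnosov S ρ 1) (h₂ : IsAnosov S ρ 2)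
    (hirr : ∀ W : Submodule ℝ (Fin d → ℝ),
      (∀ γ, ∀ v ∈ W, (ρ γ : Matrix (Fin d) (Fin d) ℝ) *ᵥ v ∈ W) → W = ⊥ ∨ W = ⊤)
    (hn : ¬ Hyperconvex ρ₀ ρ) :
    1 < dimH {v : EuclideanSpace ℝ (Fin d) |
      ‖v‖ = 1 ∧ ∃ x : ℝ × ℝ, x ≠ 0 ∧ v.ofLp ∈ xi ρ₀ ρ 1 x} := by
  subst hlift
  obtain ⟨F, rfl⟩ := Pool.Agent.P.MP_39a2dc_an.H.exists_fu ρ₀ hinj hdisc hcocompact
  obtain ⟨m, rfl⟩ : ∃ m, d = m + 3 := ⟨d - 3, by omega⟩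
  exact Pool.Agent.P.MP_39a2dc_an.H.main_dim hsym hgen F ρ h₁ h₂ hirr hn

/-- Side theorem (a check of the definitions): every `ξ¹(x)` lies in a line. -/
theorem Pool.Agent.Results.MP_39a2dc_an.LimitSetDim.line
    {Γ : Type*} [Group Γ] (S : Finset Γ) (hsym : ∀ s ∈ S, s⁻¹ ∈ S)
    (hgen : Subgroup.closure (S : Set Γ) = ⊤)
    (η₀ : Γ →* PSL(2, ℝ)) (hinj : Function.Injective η₀) (hdisc : DiscreteTopology η₀.range)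
    (hcocompact : CompactSpace (PSL(2, ℝ) ⧸ η₀.range))
    (ρ₀ : Γ →* SL(2, ℝ))
    (hlift : (QuotientGroup.mk' (Subgroup.center SL(2, ℝ))).comp ρ₀ = η₀)
    (d : ℕ) (hd : 3 ≤ d) (ρ : Γ →* SL(d, ℝ)) (h₁ : IsAnosov S ρ 1) (h₂ : IsAnosov S ρ 2)
    (x : ℝ × ℝ) (hx : x ≠ 0) : ∃ u : Fin d → ℝ, ∀ v ∈ xi ρ₀ ρ 1 x, ∃ a : ℝ, v = a • u := by
  subst hlift
  obtain ⟨F, rfl⟩ := Pool.Agent.P.MP_39a2dc_an.H.exists_fu ρ₀ hinj hdisc hcocompact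
  obtain ⟨m, rfl⟩ : ∃ m, d = m + 3 := ⟨d - 3, by omega⟩
  exact Pool.Agent.P.MP_39a2dc_an.H.xi_line hsym hgen F ρ h₁ h₂ hx
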